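import Pool.Agent.Hhelper47.Recon.Data

set_option autoImplicit false

namespace Pool.Agent.Hhelper47.Recon

theorem B1_zero : ∀ x, B1 0 x = false := by decide +kernel
theorem B2_zero : ∀ x, B2 0 x = false := by decide +kernel

theorem B1_add : ∀ l m : Fin 16, ∀ x : Fin 30, B1 (l ^^^ m) x = xor (B1 l x) (B1 m x) := by
  decide +kernel

theorem B2_add : ∀ l m : Fin 16, ∀ x : Fin 30, B2 (l ^^^ m) x = xor (B2 l x) (B2 m x) := by
  decide +kernel

theorem B1_ne : ∀ l : Fin 16, l ≠ 0 → ∃ x, B1 l x = true := by decide +kernel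
theorem B2_ne : ∀ l : Fin 16, l ≠ 0 → ∃ x, B2 l x = true := by decide +kernel

theorem B1_inc : ∀ l m : Fin 16, l ≠ 0 → (∀ x, B1 l x = true → B1 m x = true) → l = m := by
  decide +kernel

theorem B2_inj : ∀ l m : Fin 16, (∀ x, B2 l x = B2 m x) → l = m := by
  decide +kernel

theorem fMap_ne : ∀ e x : Fin 30, x ≠ e → fMap e x ≠ e := by decide +kernel

theorem fMap_inj : ∀ e x y : Fin 30, fMap e x = fMap e y → x = y := by decide +kernel

theorem tMap_spec : ∀ e : Fin 30, ∀ l : Fin 16, B1 l e = false →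
    B2 (tMap e l) e = false ∧ (l ≠ 0 → tMap e l ≠ 0) ∧
      ∀ x : Fin 30, x ≠ e → B2 (tMap e l) (fMap e x) = B1 l x := by decide +kernel

theorem tMap_surj : ∀ e : Fin 30, ∀ m : Fin 16, B2 m e = false →
    ∃ l, B1 l e = false ∧ tMap e l = m := by decide +kernel

end Pool.Agent.Hhelper47.Recon
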