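import Mathlib

/-!
# Two binary matroids on 30 elements with the same deck

`E` has 30 elements. The matroids `M` and `N` are the duals of binary matroids of rank 4.
Write `F` for the field with four elements and `V = F²`, a four-dimensional vector space over the
field with two elements. The elements of `E` are triples `(i, s, k)`, where `i ∈ {0, 1, 2, 3}`
labels an element `x_i` of `F`, `s ∈ {0, 1, 2}` and `k < i + s`. In the dual of `M` the element
`(i, s, k)` is represented by `ω^s (x_i, 1) ∈ V`, and in the dual of `N` by `ω^(-s) (x_i, 1)`.
Vectors of `V` and linear functionals on `V` are coded by numbers `< 16`.
-/

set_option autoImplicit false

namespace Pool.Agent.Hhelper47.Recon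

/-- The value (in the field with two elements) of the functional with code `l` at the vector with
code `v`: the parity of the number of common binary digits. -/
def bt (l v : ℕ) : Bool := Nat.testBit 27030 (l &&& v)

/-- The vectors representing the dual of `M`. -/
def vP (x : ℕ) : ℕ := (Nat.shiftRight 1240612373513144252488887860938300616 (4 * x)) % 16

/-- The vectors representing the dual of `N`. -/
def vQ (x : ℕ) : ℕ := (Nat.shiftRight 797537220012124213006290423652505740 (4 * x)) % 16

/-- Encoded deck isomorphisms. -/
def fTab : List ℕ := [919319806089852268172059066300681775306967072,
  1333682021618228462374979315784752575886264352,
  1333682021618228462374979315784752575886264352,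
  1103480672463273301747120340063006384445318145,
  919298751118399035743023021802640250134183360,
  919298751118399035743023021802640250134183360,
  1333682021618552980928637335204824348039940149,
  1333682021618552980928637335204824348039940149,
  1333682021618552980928637335204824348039940149,
  1103480034433835325147244723004352212323375105,
  1103480034433835325147244723004352212323375105,
  919307173106980328611137569507914429696797472,
  919307173106980328611137569507914429696797472,
  919307173106980328611137569507914429696797472,
  1103480064619508277678302683334016484420686977,
  1103480064619508277678302683334016484420686977,
  1103480064619508277678302683334016484420686977,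
  1103480064619508277678302683334016484420686977,
  1333682027107130044783386326097206611441465345,
  1333682027107130044783386326097206611441465345,
  1333682027107130044783386326097206611441465345,
  1333682027107130044663354243105631820302261440,
  1333682027107130044663354243105631820302261440,
  1333682027107130044663354243105631820302261440,
  1333682027107130044663354243105631820302261440,
  1333682027107130044663471274001184369103277067,
  1333682027107130044663471274001184369103277067,
  1333682027107130044663471274001184369103277067,
  1333682027107130044663471274001184369103277067,
  1333682027107130044663471274001184369103277067]

/-- Encoded linear maps between the spaces of functionals vanishing at the deleted element. -/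
def tTab : List ℕ := [3992723760,
  6297158178970800928,
  6297158178970800928,
  17352380395618828800,
  12177844443100741680,
  12177844443100741680,
  5765750877883207680,
  5765750877883207680,
  5765750877883207680,
  18302629540448436240,
  18302629540448436240,
  698063924595793920,
  698063924595793920,
  698063924595793920,
  651562758482952960,
  651562758482952960,
  651562758482952960,
  651562758482952960,
  1067546660198952960,
  1067546660198952960,
  1067546660198952960,
  11578860676341039360,
  11578860676341039360,
  11578860676341039360,
  11578860676341039360,
  62878873569722400,
  62878873569722400,
  62878873569722400,
  62878873569722400,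
  62878873569722400]

def B1 (l : Fin 16) (x : Fin 30) : Bool := bt l.val (vP x.val)
def B2 (l : Fin 16) (x : Fin 30) : Bool := bt l.val (vQ x.val)

def fN (e x : ℕ) : ℕ := (Nat.shiftRight (fTab.getD e 0) (5 * x)) % 32
def tN (e l : ℕ) : ℕ := (Nat.shiftRight (tTab.getD e 0) (4 * l)) % 16

def fMap (e x : Fin 30) : Fin 30 := ⟨fN e.val x.val % 30, Nat.mod_lt _ (by norm_num)⟩
def tMap (e : Fin 30) (l : Fin 16) : Fin 16 := ⟨tN e.val l.val, Nat.mod_lt _ (by norm_num)⟩

end Pool.Agent.Hhelper47.Recon
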