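import Mathlib

set_option autoImplicit false

open Set Submodule

namespace Pool.Agent.Hhelper47.Recon

theorem zmod2_add : (0 : ZMod 2) = 1 + 1 := by decide

theorem zmod2_cases (a : ZMod 2) : a = 0 ∨ a = 1 := by
  revert a
  decide

/-- A vector family on a finite type gives a matroid. -/
theorem exists_vec_matroid {n : ℕ} {W : Type} [AddCommGroup W] [Module (ZMod 2) W]
    [Module.Finite (ZMod 2) W] (ψ : Fin n → W) :
    ∃ M : Matroid (Fin n), M.E = univ ∧ ∀ I : Set (Fin n), M.Indep I ↔ LinearIndepOn (ZMod 2) ψ I := by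
  have : Fact (Nat.Prime 2) := ⟨Nat.prime_two⟩
  have hcard : ∀ I : Set (Fin n), LinearIndepOn (ZMod 2) ψ I →
      Module.finrank (ZMod 2) (span (ZMod 2) (ψ '' I)) = I.ncard := by
    intro I hI
    classical
    have h1 : ψ '' I = Set.range (fun x : I => ψ x) := by
      rw [image_eq_range]
    rw [h1]
    have h2 := finrank_span_eq_card (R := ZMod 2) (b := fun x : I => ψ x) hI
    rw [h2, Set.ncard_eq_toFinset_card', Set.toFinset_card]
  refine ⟨(IndepMatroid.ofFinite (E := univ) finite_univ (fun I => LinearIndepOn (ZMod 2) ψ I)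
    ?_ ?_ ?_ ?_).matroid, rfl, ?_⟩
  · exact linearIndepOn_empty _ _
  · intro I J hJ hIJ
    exact hJ.mono hIJ
  · intro I J hI hJ hIJ
    by_contra hcon
    push Not at hcon
    have hle : span (ZMod 2) (ψ '' J) ≤ span (ZMod 2) (ψ '' I) := by
      rw [span_le]
      rintro _ ⟨e, he, rfl⟩
      by_cases heI : e ∈ I
      · exact subset_span ⟨e, heI, rfl⟩
      · by_contra hns
        exact hcon e he heI ((linearIndepOn_insert heI).2 ⟨hI, hns⟩)
    have := Submodule.finrank_mono hle
    rw [hcard I hI, hcard J hJ] at this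
    omega
  · intro I _
    exact subset_univ _
  · intro I
    simp

/-- The matroid whose dependent sets are the sets containing the support of a nonzero word of a
code with 16 words. -/
theorem exists_matroid {n : ℕ} (B : Fin 16 → Fin n → Bool) (h0 : ∀ x, B 0 x = false)
    (hadd : ∀ l m : Fin 16, ∀ x, B (l ^^^ m) x = xor (B l x) (B m x))
    (hne : ∀ l : Fin 16, l ≠ 0 → ∃ x, B l x = true) :
    ∃ M : Matroid (Fin n), M.E = univ ∧
      (∃ k : ℕ, ∃ φ : Fin n → (Fin k → ZMod 2), ∀ I ⊆ M.E,
        (M.Indep I ↔ LinearIndependent (ZMod 2) (fun x : I => φ x))) ∧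
      ∀ I : Set (Fin n), M.Indep I ↔ ∀ l : Fin 16, l ≠ 0 → ∃ x, x ∉ I ∧ B l x = true := by
  classical
  have : Fact (Nat.Prime 2) := ⟨Nat.prime_two⟩
  let c : Fin 16 → (Fin n → ZMod 2) := fun l x => if B l x = true then 1 else 0
  have hc0 : c 0 = 0 := by
    funext x
    simp [c, h0 x]
  have hcadd : ∀ l m, c (l ^^^ m) = c l + c m := by
    intro l m
    funext x
    have := hadd l m x
    simp only [c, Pi.add_apply, this]
    cases B l x <;> cases B m x <;> simp
    exact zmod2_add
  let C : Submodule (ZMod 2) (Fin n → ZMod 2) :=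
    { carrier := Set.range c
      add_mem' := by
        rintro _ _ ⟨l, rfl⟩ ⟨m, rfl⟩
        exact ⟨l ^^^ m, hcadd l m⟩
      zero_mem' := ⟨0, hc0⟩
      smul_mem' := by
        rintro a _ ⟨l, rfl⟩
        have ha : a = 0 ∨ a = 1 := zmod2_cases a
        rcases ha with rfl | rfl
        · exact ⟨0, by simp [hc0]⟩
        · exact ⟨l, by simp⟩ }
  have hC : ∀ w, w ∈ C ↔ ∃ l, c l = w := fun w => Iff.rfl
  let W := (Fin n → ZMod 2) ⧸ C
  let b := Module.finBasis (ZMod 2) W
  let φ : Fin n → (Fin (Module.finrank (ZMod 2) W) → ZMod 2) :=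
    fun x => b.equivFun (C.mkQ (Pi.single x 1))
  obtain ⟨M, hME, hM⟩ := exists_vec_matroid φ
  refine ⟨M, hME, ⟨_, φ, fun I _ => hM I⟩, fun I => ?_⟩
  rw [hM I]
  have key : ∀ g : I → ZMod 2, (∑ i, g i • φ i = 0) ↔
      (∑ i : I, g i • (Pi.single (i : Fin n) (1 : ZMod 2) : Fin n → ZMod 2)) ∈ C := by
    intro g
    have h1 : ∑ i, g i • φ i = b.equivFun (C.mkQ (∑ i : I, g i • (Pi.single (i : Fin n) (1 : ZMod 2)))) := by
      rw [map_sum, map_sum]
      refine Finset.sum_congr rfl fun i _ => ?_
      rw [map_smul, map_smul]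
    rw [h1]
    rw [LinearEquiv.map_eq_zero_iff]
    rw [Submodule.mkQ_apply, Submodule.Quotient.mk_eq_zero]
  have heval : ∀ (g : I → ZMod 2) (x : Fin n),
      (∑ i : I, g i • (Pi.single (i : Fin n) (1 : ZMod 2) : Fin n → ZMod 2)) x =
        if h : x ∈ I then g ⟨x, h⟩ else 0 := by
    intro g x
    rw [Finset.sum_apply]
    simp only [Pi.smul_apply, Pi.single_apply, smul_eq_mul, mul_ite, mul_one, mul_zero]
    by_cases hx : x ∈ I
    · rw [dif_pos hx, Finset.sum_eq_single (⟨x, hx⟩ : I)]
      · simp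
      · intro i _ hi
        rw [if_neg]
        intro hxi
        exact hi (Subtype.ext hxi.symm)
      · intro h
        exact absurd (Finset.mem_univ _) h
    · rw [dif_neg hx]
      refine Finset.sum_eq_zero fun i _ => ?_
      rw [if_neg]
      intro hxi
      exact hx (hxi ▸ i.2)
  unfold LinearIndepOn
  rw [Fintype.linearIndependent_iff]
  constructor
  · intro hI l hl
    by_contra hcon
    push Not at hcon
    obtain ⟨x, hx⟩ := hne l hl
    have hsup : ∀ x, B l x = true → x ∈ I := by
      intro x hx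
      by_contra hxI
      exact hcon x hxI hx
    have h1 := hI (fun i => c l i) ((key _).2 ((hC _).2 ⟨l, ?_⟩)) ⟨x, hsup x hx⟩
    · simp [c, hx] at h1
    · funext y
      rw [heval]
      by_cases hy : y ∈ I
      · rw [dif_pos hy]
      · rw [dif_neg hy]
        have : B l y ≠ true := fun h => hy (hsup y h)
        simp only [c]
        rw [if_neg this]
  · intro h g hg i
    obtain ⟨l, hl⟩ := (hC _).1 ((key g).1 hg)
    have hl0 : l = 0 := by
      by_contra hl0
      obtain ⟨x, hx, hBx⟩ := h l hl0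
      have := congrFun hl x
      rw [heval, dif_neg hx] at this
      simp [c, hBx] at this
    have := congrFun hl (i : Fin n)
    rw [hl0, hc0, heval, dif_pos i.2] at this
    simpa using this.symm

end Pool.Agent.Hhelper47.Recon
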