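import Pool.Agent.Hhelper47.Recon.Checks
import Pool.Agent.Hhelper47.Recon.Mat

set_option autoImplicit false

open Set

namespace Pool.Agent.Hhelper47.Recon

def s1 (l : Fin 16) : ℕ :=
  [0, 18, 18, 18, 20, 16, 12, 14, 24, 14, 16, 12, 16, 12, 14, 16].getD l.val 0

def s2 (l : Fin 16) : ℕ :=
  [0, 18, 18, 18, 16, 16, 12, 14, 24, 14, 16, 12, 20, 12, 14, 16].getD l.val 0

theorem s1_spec : ∀ l, (Finset.univ.filter (fun x => B1 l x = true)).card = s1 l := by
  decide +kernel

theorem s2_spec : ∀ l, (Finset.univ.filter (fun x => B2 l x = true)).card = s2 l := by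
  decide +kernel

theorem no_linear : ∀ t8 t4 t1 : Fin 16, s2 t8 = s1 8 → s2 t4 = s1 4 → s2 t1 = s1 1 →
    s2 (t1 ^^^ t4) = s1 5 → s2 (t1 ^^^ t8) = s1 9 → False := by
  decide +kernel

theorem no_iso (M N : Matroid (Fin 30))
    (hM : ∀ I : Set (Fin 30), M.Indep I ↔ ∀ l : Fin 16, l ≠ 0 → ∃ x, x ∉ I ∧ B1 l x = true)
    (hN : ∀ I : Set (Fin 30), N.Indep I ↔ ∀ l : Fin 16, l ≠ 0 → ∃ x, x ∉ I ∧ B2 l x = true)
    (f : Fin 30 → Fin 30) (hf : Function.Bijective f)
    (hiso : ∀ I : Set (Fin 30), M.Indep I ↔ N.Indep (f '' I)) : False := by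
  classical
  have hMd : ∀ I : Set (Fin 30), ¬ M.Indep I ↔ ∃ l : Fin 16, l ≠ 0 ∧ ∀ x, B1 l x = true → x ∈ I := by
    intro I
    rw [hM I]
    push Not
    refine exists_congr fun l => and_congr_right fun _ => forall_congr' fun x => ?_
    by_cases hx : x ∈ I <;> simp [hx]
  have hNd : ∀ I : Set (Fin 30), ¬ N.Indep I ↔ ∃ l : Fin 16, l ≠ 0 ∧ ∀ x, B2 l x = true → x ∈ I := by
    intro I
    rw [hN I]
    push Not
    refine exists_congr fun l => and_congr_right fun _ => forall_congr' fun x => ?_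
    by_cases hx : x ∈ I <;> simp [hx]
  have claimA : ∀ l : Fin 16, ∃ m : Fin 16, ∀ x, B1 l x = B2 m (f x) := by
    intro l
    by_cases hl : l = 0
    · exact ⟨0, fun x => by rw [hl, B1_zero, B2_zero]⟩
    have h1 : ¬ M.Indep {x | B1 l x = true} := (hMd _).2 ⟨l, hl, fun x hx => hx⟩
    rw [hiso] at h1
    obtain ⟨m, hm, hm2⟩ := (hNd _).1 h1
    have h2 : ¬ M.Indep (f ⁻¹' {y | B2 m y = true}) := by
      rw [hiso, image_preimage_eq _ hf.surjective]
      exact (hNd _).2 ⟨m, hm, fun x hx => hx⟩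
    obtain ⟨l', hl', hl2⟩ := (hMd _).1 h2
    have h3 : ∀ x, B2 m (f x) = true → B1 l x = true := by
      intro x hx
      obtain ⟨x', hx', hxx⟩ := hm2 (f x) hx
      rw [← hf.injective hxx]
      exact hx'
    have h4 : l' = l := B1_inc l' l hl' fun x hx => h3 x (hl2 x hx)
    refine ⟨m, fun x => ?_⟩
    rw [Bool.eq_iff_iff]
    exact ⟨fun hx => hl2 x (h4 ▸ hx), h3 x⟩
  choose T hT using claimA
  have hTadd : ∀ l m, T (l ^^^ m) = T l ^^^ T m := by
    intro l m
    refine B2_inj _ _ fun y => ?_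
    obtain ⟨x, rfl⟩ := hf.surjective y
    rw [← hT, B1_add, B2_add, hT, hT]
  have hs : ∀ l, s2 (T l) = s1 l := by
    intro l
    rw [← s1_spec, ← s2_spec]
    symm
    refine Finset.card_bij (fun x _ => f x) ?_ ?_ ?_
    · intro x hx
      rw [Finset.mem_filter] at hx ⊢
      exact ⟨Finset.mem_univ _, by rw [← hT]; exact hx.2⟩
    · intro x _ y _ hxy
      exact hf.injective hxy
    · intro y hy
      obtain ⟨x, rfl⟩ := hf.surjective y
      rw [Finset.mem_filter] at hy
      exact ⟨x, Finset.mem_filter.2 ⟨Finset.mem_univ _, by rw [hT]; exact hy.2⟩, rfl⟩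
  have e5 : (5 : Fin 16) = 1 ^^^ 4 := by decide
  have e9 : (9 : Fin 16) = 1 ^^^ 8 := by decide
  refine no_linear (T 8) (T 4) (T 1) (hs 8) (hs 4) (hs 1) ?_ ?_
  · rw [← hTadd, ← e5]; exact hs 5
  · rw [← hTadd, ← e9]; exact hs 9

/-- The deck isomorphisms. -/
theorem deck_iso (M N : Matroid (Fin 30))
    (hM : ∀ I : Set (Fin 30), M.Indep I ↔ ∀ l : Fin 16, l ≠ 0 → ∃ x, x ∉ I ∧ B1 l x = true)
    (hN : ∀ I : Set (Fin 30), N.Indep I ↔ ∀ l : Fin 16, l ≠ 0 → ∃ x, x ∉ I ∧ B2 l x = true)
    (e : Fin 30) (I : Set (Fin 30)) (heI : e ∉ I) :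
    M.Indep I ↔ N.Indep (fMap e '' I) := by
  rw [hM, hN]
  have hmem : ∀ x, fMap e x ∈ fMap e '' I ↔ x ∈ I := fun x =>
    (Function.Injective.mem_set_image (fun a b h => fMap_inj e a b h))
  constructor
  · intro h m hm
    by_cases hme : B2 m e = false
    · obtain ⟨l, hl, hlm⟩ := tMap_surj e m hme
      have hl0 : l ≠ 0 := by
        rintro rfl
        obtain ⟨y, hy⟩ := B2_ne m hm
        have h1 := (tMap_spec e 0 hl).2.2
        have h2 : ∀ x, x ≠ e → B2 m (fMap e x) = false := by
          intro x hx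
          rw [← hlm, h1 x hx, B1_zero]
        have hbij : Function.Bijective (fMap e) :=
          Finite.injective_iff_bijective.1 (fun a b h => fMap_inj e a b h)
        obtain ⟨x, rfl⟩ := hbij.surjective y
        by_cases hx : x = e
        · subst hx
          have h3 : fMap x x = x := by
            by_contra h3
            obtain ⟨z, hz⟩ := hbij.surjective x
            by_cases hzx : z = x
            · rw [hzx] at hz
              exact h3 hz
            · exact fMap_ne x z hzx hz
          rw [h3, hme] at hy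
          exact absurd hy (by decide)
        · rw [h2 x hx] at hy
          exact absurd hy (by decide)
      obtain ⟨x, hxI, hx⟩ := h l hl0
      have hxe : x ≠ e := by
        rintro rfl
        rw [hl] at hx
        exact absurd hx (by decide)
      refine ⟨fMap e x, fun h' => hxI ((hmem x).1 h'), ?_⟩
      rw [← hlm, (tMap_spec e l hl).2.2 x hxe]
      exact hx
    · refine ⟨e, ?_, by simpa using hme⟩
      rintro ⟨x, hx, hxe⟩
      by_cases h' : x = e
      · exact heI (h' ▸ hx)
      · exact fMap_ne e x h' hxe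
  · intro h l hl
    by_cases hle : B1 l e = false
    · obtain ⟨h1, h2, h3⟩ := tMap_spec e l hle
      obtain ⟨y, hyI, hy⟩ := h _ (h2 hl)
      have hbij : Function.Bijective (fMap e) :=
        Finite.injective_iff_bijective.1 (fun a b h => fMap_inj e a b h)
      obtain ⟨x, rfl⟩ := hbij.surjective y
      have hxI : x ∉ I := fun h' => hyI ((hmem x).2 h')
      by_cases hx : x = e
      · subst hx
        have h3' : fMap x x = x := by
          by_contra h3'
          obtain ⟨z, hz⟩ := hbij.surjective x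
          by_cases hzx : z = x
          · rw [hzx] at hz
            exact h3' hz
          · exact fMap_ne x z hzx hz
        rw [h3', h1] at hy
        exact absurd hy (by decide)
      · refine ⟨x, hxI, ?_⟩
        rw [← h3 x hx]
        exact hy
    · exact ⟨e, heI, by simpa using hle⟩

end Pool.Agent.Hhelper47.Recon
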